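import Pool.Agent.H937.QS.Stm

open scoped Matrix TensorProduct
open Pool.Agent.H937.QS

universe u

namespace Pool.Agent.H686.QS.SYM

open Module in
theorem repr_symm {k B ι : Type*} [Field k] [AddCommGroup B] [Module k B] (β : Basis ι k B) (n : ℕ)
    (x : ⨂[k] _ : Fin n, B) (σ : Equiv.Perm (Fin n)) (g : Fin n → ι) :
    (Basis.piTensorProduct (fun _ : Fin n => β)).repr
      (PiTensorProduct.reindex k (fun _ => B) σ x) g =
    (Basis.piTensorProduct (fun _ : Fin n => β)).repr x (g ∘ σ) := by
  classical
  have h : ((Basis.piTensorProduct (fun _ : Fin n => β)).coord g).comp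
      (PiTensorProduct.reindex k (fun _ : Fin n => B) σ).toLinearMap =
      (Basis.piTensorProduct (fun _ : Fin n => β)).coord (g ∘ σ) := by
    apply PiTensorProduct.ext
    apply MultilinearMap.ext
    intro f
    simp only [LinearMap.compMultilinearMap_apply, LinearMap.comp_apply, LinearEquiv.coe_coe,
      PiTensorProduct.reindex_tprod, Basis.coord_apply]
    rw [Basis.piTensorProduct_repr_tprod_apply]
    have e := Basis.piTensorProduct_repr_tprod_apply (fun _ : Fin n => β) f (g ∘ σ)
    refine Eq.trans ?_ e.symm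
    rw [← Equiv.prod_comp σ]
    refine Finset.prod_congr rfl fun i _ => ?_
    have e3 : σ.symm (σ i) = i := σ.symm_apply_apply i
    rw [e3]
    rfl
  exact LinearMap.congr_fun h x

theorem exists_perm {ι : Type*} {n : ℕ} (f g : Fin n → ι)
    (h : ∑ i, Finsupp.single (f i) 1 = (∑ i, Finsupp.single (g i) 1 : ι →₀ ℕ)) :
    ∃ σ : Equiv.Perm (Fin n), f = g ∘ σ := by
  classical
  have key : ∀ (f : Fin n → ι) (a : ι), (∑ i, Finsupp.single (f i) 1 : ι →₀ ℕ) a =
      Fintype.card {i // f i = a} := by
    intro f a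
    rw [Finsupp.finsetSum_apply, Fintype.card_subtype, Finset.card_filter]
    refine Finset.sum_congr rfl fun i _ => ?_
    rw [Finsupp.single_apply]
  have hc : ∀ a, Fintype.card {i // f i = a} = Fintype.card {i // g i = a} := by
    intro a
    rw [← key, ← key, h]
  let e : ∀ a, {i // f i = a} ≃ {i // g i = a} := fun a => Fintype.equivOfCardEq (hc a)
  refine ⟨(Equiv.sigmaFiberEquiv f).symm.trans ((Equiv.sigmaCongrRight e).trans
    (Equiv.sigmaFiberEquiv g)), ?_⟩
  funext i
  exact (e (f i) ⟨i, rfl⟩).2.symm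

open Module in
theorem main {k B : Type*} [Field k] [Infinite k] [AddCommGroup B] [Module k B] (n : ℕ)
    (x : ⨂[k] _ : Fin n, B)
    (hx : ∀ σ : Equiv.Perm (Fin n), PiTensorProduct.reindex k (fun _ => B) σ x = x) :
    x ∈ Submodule.span k (Set.range fun b : B => PiTensorProduct.tprod k fun _ : Fin n => b) := by
  classical
  let β := Basis.ofVectorSpace k B
  let E := Basis.piTensorProduct (fun _ : Fin n => β)
  by_contra hnot
  obtain ⟨lam, hlam1, hlam2⟩ := Submodule.exists_le_ker_of_notMem hnot
  apply hlam1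
  let c := E.repr x
  let s : Finset _ := c.support.biUnion fun f => Finset.univ.image f
  let A : Finset (Fin n → _) := Fintype.piFinset fun _ => s
  let T : (Fin n → (Basis.ofVectorSpaceIndex k B)) → ((Basis.ofVectorSpaceIndex k B) →₀ ℕ) :=
    fun f => ∑ i, Finsupp.single (f i) 1
  have hE : ∀ f, E f = PiTensorProduct.tprod k fun i => β (f i) := fun f =>
    Basis.piTensorProduct_apply _ f
  -- the polynomial
  let P : MvPolynomial (Basis.ofVectorSpaceIndex k B) k :=
    ∑ f ∈ A, MvPolynomial.monomial (T f) (lam (E f))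
  have hP : P = 0 := by
    apply MvPolynomial.funext
    intro t
    have h0 : lam (PiTensorProduct.tprod k fun _ : Fin n => ∑ l ∈ s, t l • β l) = 0 := by
      apply hlam2
      exact Submodule.subset_span ⟨_, rfl⟩
    rw [MultilinearMap.map_sum_finset, map_sum] at h0
    rw [map_zero, ← h0]
    simp only [P, map_sum]
    refine Finset.sum_congr rfl fun f _ => ?_
    rw [MultilinearMap.map_smul_univ, map_smul, MvPolynomial.eval_monomial, ← hE, smul_eq_mul,
      mul_comm]
    congr 1
    simp only [T]
    rw [← Finsupp.prod_finsetSum_index]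
    · refine Finset.prod_congr rfl fun i _ => ?_
      simp
    · intro a; simp
    · intro a b₁ b₂; rw [pow_add]
  have hcA : ∀ f, c f ≠ 0 → f ∈ A := by
    intro f hf
    rw [Fintype.mem_piFinset]
    intro i
    exact Finset.mem_biUnion.2 ⟨f, Finsupp.mem_support_iff.2 hf,
      Finset.mem_image.2 ⟨i, Finset.mem_univ _, rfl⟩⟩
  have hx1 : lam x = ∑ f ∈ A, c f * lam (E f) := by
    have e1 : x = ∑ f ∈ c.support, c f • E f := (E.linearCombination_repr x).symm
    have e2 : lam x = ∑ f ∈ c.support, c f * lam (E f) := by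
      conv_lhs => rw [e1]
      rw [map_sum]
      refine Finset.sum_congr rfl fun f _ => ?_
      rw [map_smul, smul_eq_mul]
    rw [e2]
    apply Finset.sum_subset
    · intro f hf
      exact hcA f (Finsupp.mem_support_iff.1 hf)
    · intro f _ hf
      rw [Finsupp.notMem_support_iff.1 hf, zero_mul]
  have hcsym : ∀ f g, T f = T g → c f = c g := by
    intro f g h
    obtain ⟨σ, rfl⟩ := exists_perm f g h
    have := repr_symm β n x σ g
    rw [hx σ] at this
    exact this.symm
  rw [hx1, ← Finset.sum_fiberwise_of_maps_to (s := A) (t := A.image T) (g := T)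
    (fun f hf => Finset.mem_image_of_mem T hf)]
  refine Finset.sum_eq_zero fun m hm => ?_
  obtain ⟨f0, hf0, rfl⟩ := Finset.mem_image.1 hm
  have e3 : ∑ f ∈ A with T f = T f0, c f * lam (E f) =
      c f0 * ∑ f ∈ A with T f = T f0, lam (E f) := by
    rw [Finset.mul_sum]
    refine Finset.sum_congr rfl fun f hf => ?_
    rw [hcsym f f0 (Finset.mem_filter.1 hf).2]
  rw [e3]
  have e4 : MvPolynomial.coeff (T f0) P = ∑ f ∈ A with T f = T f0, lam (E f) := by
    simp only [P, MvPolynomial.coeff_sum, MvPolynomial.coeff_monomial]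
    rw [Finset.sum_filter]
  rw [← e4, hP, MvPolynomial.coeff_zero, mul_zero]

theorem t_SYM : S_SYM.{u} := by
  intro k B _ _ _ _ n x hx
  exact main n x hx

end Pool.Agent.H686.QS.SYM
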